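import Pool.Agent.Q63.ISO.Stm

/-!
Job ISO-MOM of project ISO (helper63): moments of a series of iterated convolutions.
-/

set_option autoImplicit false

open MeasureTheory Set Filter Metric
open scoped ENNReal

namespace Pool.Agent.Q203.ISO

open Pool.Agent.Q63.ISO

/-- The weight. -/
noncomputable def wt (e : ℝ≥0∞) (n : ℕ) (ξ : P) : ℝ≥0∞ := (1 + e * ‖ξ‖ₑ) ^ n

lemma measurable_wt (e : ℝ≥0∞) (n : ℕ) : Measurable (wt e n) := by
  unfold wt
  fun_prop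

lemma wt_sub (e : ℝ≥0∞) (n : ℕ) (ξ η : P) : wt e n ξ ≤ wt e n η * wt e n (ξ - η) := by
  unfold wt
  rw [← mul_pow]
  refine pow_le_pow_left' ?_ n
  have h : ‖ξ‖ₑ ≤ ‖η‖ₑ + ‖ξ - η‖ₑ := by
    calc ‖ξ‖ₑ = ‖η + (ξ - η)‖ₑ := by congr 1; abel
      _ ≤ _ := enorm_add_le _ _
  calc 1 + e * ‖ξ‖ₑ ≤ 1 + e * (‖η‖ₑ + ‖ξ - η‖ₑ) := by gcongr
    _ = (1 + e * ‖η‖ₑ + e * ‖ξ - η‖ₑ) + 0 := by ring
    _ ≤ (1 + e * ‖η‖ₑ + e * ‖ξ - η‖ₑ) + e * ‖η‖ₑ * (e * ‖ξ - η‖ₑ) := by gcongr; exact bot_le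
    _ = (1 + e * ‖η‖ₑ) * (1 + e * ‖ξ - η‖ₑ) := by ring

/-- The weighted integrals of the iterated convolutions. -/
lemma iter_bound (w H : P → ℝ≥0∞) (hw : Measurable w) (hH : Measurable H)
    (hsub : ∀ ξ η, w ξ ≤ w η * w (ξ - η)) (N : ℕ → P → ℝ≥0∞) (hN : ∀ k, Measurable (N k))
    (h0 : ∀ᵐ ξ, N 0 ξ ≤ H ξ) (hs : ∀ k, ∀ᵐ ξ, N (k + 1) ξ ≤ ∫⁻ η, H η * N k (ξ - η)) (k : ℕ) :
    ∫⁻ ξ, w ξ * N k ξ ≤ (∫⁻ ξ, w ξ * H ξ) ^ (k + 1) := by
  induction k with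
  | zero =>
    rw [zero_add, pow_one]
    refine lintegral_mono_ae ?_
    filter_upwards [h0] with ξ hξ
    gcongr
  | succ k ih =>
    calc ∫⁻ ξ, w ξ * N (k + 1) ξ
        ≤ ∫⁻ ξ, ∫⁻ η, (w η * H η) * (w (ξ - η) * N k (ξ - η)) := by
          refine lintegral_mono_ae ?_
          filter_upwards [hs k] with ξ hξ
          calc w ξ * N (k + 1) ξ ≤ w ξ * ∫⁻ η, H η * N k (ξ - η) := by gcongr
            _ = ∫⁻ η, w ξ * (H η * N k (ξ - η)) := by
                rw [lintegral_const_mul]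
                exact hH.mul ((hN k).comp (measurable_const.sub measurable_id))
            _ ≤ _ := by
                refine lintegral_mono fun η => ?_
                calc w ξ * (H η * N k (ξ - η)) ≤ (w η * w (ξ - η)) * (H η * N k (ξ - η)) := by
                      gcongr
                      exact hsub ξ η
                  _ = _ := by ring
      _ = ∫⁻ η, ∫⁻ ξ, (w η * H η) * (w (ξ - η) * N k (ξ - η)) := by
          rw [lintegral_lintegral_swap]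
          refine Measurable.aemeasurable ?_
          have h1 : Measurable fun p : P × P => w p.2 * H p.2 :=
            (hw.comp measurable_snd).mul (hH.comp measurable_snd)
          have h2 : Measurable fun p : P × P => w (p.1 - p.2) * N k (p.1 - p.2) :=
            (hw.comp (measurable_fst.sub measurable_snd)).mul
              ((hN k).comp (measurable_fst.sub measurable_snd))
          exact h1.mul h2
      _ = ∫⁻ η, (w η * H η) * ∫⁻ ξ, w ξ * N k ξ := by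
          refine lintegral_congr fun η => ?_
          rw [lintegral_const_mul]
          · congr 1
            exact lintegral_sub_right_eq_self (μ := (volume : Measure P)) (fun ξ => w ξ * N k ξ) η
          · exact (hw.comp (measurable_id.sub_const η)).mul
              ((hN k).comp (measurable_id.sub_const η))
      _ = (∫⁻ ξ, w ξ * H ξ) * ∫⁻ ξ, w ξ * N k ξ := by
          rw [lintegral_mul_const]
          exact hw.mul hH
      _ ≤ (∫⁻ ξ, w ξ * H ξ) * (∫⁻ ξ, w ξ * H ξ) ^ (k + 1) := by gcongr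
      _ = _ := by rw [← pow_succ']

lemma wt_small (e : ℝ≥0∞) (he : e ≤ 1) (x : ℝ≥0∞) (n : ℕ) :
    (1 + e * x) ^ n + e ≤ 1 + e * (1 + x) ^ n := by
  induction n with
  | zero => simp
  | succ n ih =>
    calc (1 + e * x) ^ (n + 1) + e = ((1 + e * x) ^ n + e) + e * x * (1 + e * x) ^ n := by ring
      _ ≤ (1 + e * (1 + x) ^ n) + e * x * (1 + x) ^ n := by
          have : e * x ≤ x := by
            calc e * x ≤ 1 * x := by gcongr
              _ = x := one_mul x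
          gcongr
      _ = 1 + e * (1 + x) ^ (n + 1) := by ring

theorem proof_mom : S_MOM := by
  intro H hH hmom hH1 N hN h0 hs
  refine ⟨fun n => ?_, ?_⟩
  · -- the moments
    have hM : ∫⁻ ξ, (1 + ‖ξ‖ₑ) ^ n * H ξ ≠ ⊤ := by
      have h1 : ∫⁻ ξ, (1 + ‖ξ‖ₑ) ^ n * H ξ ≤
          2 ^ n * ((∫⁻ ξ, ‖ξ‖ₑ ^ 0 * H ξ) + (∫⁻ ξ, ‖ξ‖ₑ ^ n * H ξ)) := by
        rw [← lintegral_add_left (by fun_prop), ← lintegral_const_mul _ (by fun_prop)]
        · refine lintegral_mono fun ξ => ?_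
          have h2 : (1 + ‖ξ‖ₑ) ^ n ≤ 2 ^ n * (1 + ‖ξ‖ₑ ^ n) := by
            rcases le_total ‖ξ‖ₑ 1 with h | h
            · calc (1 + ‖ξ‖ₑ) ^ n ≤ (1 + 1) ^ n := by gcongr
                _ = 2 ^ n * 1 := by rw [mul_one]; norm_num
                _ ≤ _ := by gcongr; exact le_self_add
            · calc (1 + ‖ξ‖ₑ) ^ n ≤ (‖ξ‖ₑ + ‖ξ‖ₑ) ^ n := by gcongr
                _ = 2 ^ n * ‖ξ‖ₑ ^ n := by rw [← mul_pow]; ring
                _ ≤ _ := by gcongr; exact le_add_self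
          calc (1 + ‖ξ‖ₑ) ^ n * H ξ ≤ (2 ^ n * (1 + ‖ξ‖ₑ ^ n)) * H ξ := by gcongr
            _ = 2 ^ n * (‖ξ‖ₑ ^ 0 * H ξ + ‖ξ‖ₑ ^ n * H ξ) := by ring
      refine ne_top_of_le_ne_top ?_ h1
      exact ENNReal.mul_ne_top (by simp) (ENNReal.add_ne_top.2 ⟨hmom 0, hmom n⟩)
    obtain ⟨e, he0, he1, heM⟩ : ∃ e : ℝ≥0∞, e ≠ 0 ∧ e ≤ 1 ∧
        e * ∫⁻ ξ, (1 + ‖ξ‖ₑ) ^ n * H ξ ≤ 1 / 10 := by
      set M := ∫⁻ ξ, (1 + ‖ξ‖ₑ) ^ n * H ξ
      refine ⟨(10 * (1 + M))⁻¹, ?_, ?_, ?_⟩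
      · refine ENNReal.inv_ne_zero.2 (ENNReal.mul_ne_top (by simp) ?_)
        exact ENNReal.add_ne_top.2 ⟨by simp, hM⟩
      · rw [ENNReal.inv_le_one]
        calc (1 : ℝ≥0∞) ≤ 10 * 1 := by norm_num
          _ ≤ _ := by gcongr; exact le_self_add
      · rw [ENNReal.mul_inv (by simp) (by simp), mul_assoc, one_div]
        calc (10 : ℝ≥0∞)⁻¹ * ((1 + M)⁻¹ * M) ≤ 10⁻¹ * ((1 + M)⁻¹ * (1 + M)) := by
              gcongr; exact le_add_self
          _ ≤ 10⁻¹ * 1 := by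
              gcongr
              exact ENNReal.inv_mul_le_one _
          _ = 10⁻¹ := mul_one _
    have hW : ∫⁻ ξ, wt e n ξ * H ξ ≤ 1 / 2 := by
      calc ∫⁻ ξ, wt e n ξ * H ξ ≤ ∫⁻ ξ, H ξ + e * ((1 + ‖ξ‖ₑ) ^ n * H ξ) := by
            refine lintegral_mono fun ξ => ?_
            have h1 := wt_small e he1 ‖ξ‖ₑ n
            have h2 : wt e n ξ ≤ 1 + e * (1 + ‖ξ‖ₑ) ^ n := le_trans le_self_add h1
            calc wt e n ξ * H ξ ≤ (1 + e * (1 + ‖ξ‖ₑ) ^ n) * H ξ := by gcongr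
              _ = _ := by ring
        _ = (∫⁻ ξ, H ξ) + e * ∫⁻ ξ, (1 + ‖ξ‖ₑ) ^ n * H ξ := by
            rw [lintegral_add_left hH, lintegral_const_mul _ (by fun_prop)]
        _ ≤ 1 / 10 + 1 / 10 := by gcongr
        _ ≤ 1 / 2 := by
            rw [← ENNReal.toReal_le_toReal (by simp) (by simp)]
            rw [ENNReal.toReal_add (by simp) (by simp)]
            norm_num
    have hk : ∀ k, ∫⁻ ξ, ‖ξ‖ₑ ^ n * N k ξ ≤ (e ^ n)⁻¹ * (1 / 2) ^ (k + 1) := by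
      intro k
      have h1 := iter_bound (wt e n) H (measurable_wt e n) hH (wt_sub e n) N hN h0 hs k
      have h2 : ∫⁻ ξ, ‖ξ‖ₑ ^ n * N k ξ ≤ (e ^ n)⁻¹ * ∫⁻ ξ, wt e n ξ * N k ξ := by
        have hme : Measurable fun ξ => wt e n ξ * N k ξ := (measurable_wt e n).mul (hN k)
        rw [← lintegral_const_mul _ hme]
        refine lintegral_mono fun ξ => ?_
        have he2 : e ^ n ≠ 0 := pow_ne_zero _ he0
        have he3 : e ^ n ≠ ⊤ := ENNReal.pow_ne_top (ne_top_of_le_ne_top (by simp) he1)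
        have h3 : e ^ n * ‖ξ‖ₑ ^ n ≤ wt e n ξ := by
          rw [← mul_pow]
          unfold wt
          gcongr
          exact le_add_self
        calc ‖ξ‖ₑ ^ n * N k ξ = (e ^ n)⁻¹ * (e ^ n * ‖ξ‖ₑ ^ n) * N k ξ := by
              rw [← mul_assoc, ENNReal.inv_mul_cancel he2 he3, one_mul]
          _ ≤ (e ^ n)⁻¹ * wt e n ξ * N k ξ := by gcongr
          _ = _ := by rw [mul_assoc]
      calc ∫⁻ ξ, ‖ξ‖ₑ ^ n * N k ξ ≤ (e ^ n)⁻¹ * ∫⁻ ξ, wt e n ξ * N k ξ := h2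
        _ ≤ (e ^ n)⁻¹ * (∫⁻ ξ, wt e n ξ * H ξ) ^ (k + 1) := by gcongr
        _ ≤ _ := by gcongr
    refine ne_top_of_le_ne_top ?_ (ENNReal.tsum_le_tsum hk)
    rw [ENNReal.tsum_mul_left, ENNReal.tsum_geometric_add_one]
    refine ENNReal.mul_ne_top (ENNReal.inv_ne_top.2 (pow_ne_zero _ he0)) ?_
    refine ENNReal.mul_ne_top (by simp) ?_
    rw [one_div, ENNReal.one_sub_inv_two]
    simp
  · -- the sum of the integrals
    have hk : ∀ k, ∫⁻ ξ, N k ξ ≤ (1 / 10) ^ (k + 1) := by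
      intro k
      have h1 := iter_bound (fun _ => 1) H measurable_const hH (fun _ _ => by simp) N hN h0 hs k
      simp only [one_mul] at h1
      exact h1.trans (by gcongr)
    refine (ENNReal.tsum_le_tsum hk).trans ?_
    rw [ENNReal.tsum_geometric_add_one]
    have h9 : (1 : ℝ≥0∞) - 1 / 10 = 9 / 10 := by
      rw [← ENNReal.toReal_eq_toReal_iff' (by simp) (by simp [ENNReal.div_eq_top])]
      rw [ENNReal.toReal_sub_of_le (by simp) (by simp)]
      norm_num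
    rw [h9]
    rw [ENNReal.inv_div (by simp) (by simp)]
    rw [← ENNReal.toReal_le_toReal (by simp [ENNReal.mul_eq_top, ENNReal.div_eq_top]) (by simp)]
    norm_num

end Pool.Agent.Q203.ISO
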