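import Pool.Agent.Q63.ISO.Stm
import Pool.Agent.Q203.ISO.Mom

/-!
Job ISO-NEU of project ISO (helper63): the Neumann series in L1 with all the moments.
-/

set_option autoImplicit false

open MeasureTheory Set Filter Metric
open scoped ENNReal Convolution

namespace Pool.Agent.Q203.ISO

open Pool.Agent.Q63.ISO

/-- The iterates. -/
noncomputable def it (Q : P → ℝ) (K : Fin 2 → Fin 2 → P → ℂ) : ℕ → Fin 2 → P → ℂ
  | 0 => fun j ξ => -(((ξ j / Q ξ : ℝ) : ℂ) * ∑ l, ((ξ l : ℝ) : ℂ) * K l 0 ξ)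
  | k + 1 => fun j ξ => -(((ξ j / Q ξ : ℝ) : ℂ) *
      ∑ l, ((ξ l : ℝ) : ℂ) * ∑ m, cv (K l m) (it Q K k m) ξ)

lemma cv_apply (f g : P → ℂ) (ξ : P) : cv f g ξ = ∫ η, f η * g (ξ - η) := by
  simp [cv, convolution_def]

lemma measurable_cv (f g : P → ℂ) (hf : Measurable f) (hg : Measurable g) :
    Measurable (cv f g) := by
  have h : cv f g = fun ξ => ∫ η, f η * g (ξ - η) := by
    funext ξ
    exact cv_apply f g ξ
  rw [h]
  have h2 : StronglyMeasurable (Function.uncurry fun ξ η : P => f η * g (ξ - η)) := by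
    refine Measurable.stronglyMeasurable ?_
    exact (hf.comp measurable_snd).mul (hg.comp (measurable_fst.sub measurable_snd))
  exact h2.integral_prod_right.measurable

lemma measurable_it (Q : P → ℝ) (hQ : Measurable Q) (K : Fin 2 → Fin 2 → P → ℂ)
    (hK : ∀ l m, Measurable (K l m)) (k : ℕ) : ∀ j, Measurable (it Q K k j) := by
  have hc : ∀ j : Fin 2, Measurable fun ξ : P => ξ j := fun j => by fun_prop
  induction k with
  | zero =>
    intro j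
    refine Measurable.neg (Measurable.mul (Complex.measurable_ofReal.comp ((hc j).div hQ)) ?_)
    exact Finset.measurable_sum _ fun l _ => (Complex.measurable_ofReal.comp (hc l)).mul (hK l 0)
  | succ k ih =>
    intro j
    refine Measurable.neg (Measurable.mul (Complex.measurable_ofReal.comp ((hc j).div hQ)) ?_)
    refine Finset.measurable_sum _ fun l _ => (Complex.measurable_ofReal.comp (hc l)).mul ?_
    exact Finset.measurable_sum _ fun m _ => measurable_cv _ _ (hK l m) (ih m)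

/-- The factor. -/
lemma coef_bound (lam : ℝ) (hlam : 0 < lam) (Q : P → ℝ) (hQ : ∀ ξ, lam * ‖ξ‖ ^ 2 ≤ Q ξ) (ξ : P)
    (j : Fin 2) (z : Fin 2 → ℂ) :
    ‖-(((ξ j / Q ξ : ℝ) : ℂ) * ∑ l, ((ξ l : ℝ) : ℂ) * z l)‖ₑ ≤
      ENNReal.ofReal (1 / lam) * ∑ l, ‖z l‖ₑ := by
  have h1 : ‖-(((ξ j / Q ξ : ℝ) : ℂ) * ∑ l, ((ξ l : ℝ) : ℂ) * z l)‖ ≤ (1 / lam) * ∑ l, ‖z l‖ := by
    rw [norm_neg, norm_mul, Complex.norm_real]
    have h2 : ‖∑ l, ((ξ l : ℝ) : ℂ) * z l‖ ≤ ∑ l, ‖ξ‖ * ‖z l‖ := by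
      refine (norm_sum_le _ _).trans (Finset.sum_le_sum fun l _ => ?_)
      rw [norm_mul, Complex.norm_real]
      have := PiLp.norm_apply_le ξ l
      gcongr
    rw [← Finset.mul_sum] at h2
    have h3 : ‖ξ j / Q ξ‖ * ‖ξ‖ ≤ 1 / lam := by
      rcases eq_or_ne ξ 0 with rfl | hξ
      · simp [hlam.le]
      · have hn : 0 < ‖ξ‖ := norm_pos_iff.2 hξ
        have hq : 0 < Q ξ := lt_of_lt_of_le (by positivity) (hQ ξ)
        rw [norm_div, Real.norm_of_nonneg hq.le, div_mul_eq_mul_div, div_le_div_iff₀ hq hlam]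
        have h4 : ‖ξ j‖ ≤ ‖ξ‖ := PiLp.norm_apply_le ξ j
        calc ‖ξ j‖ * ‖ξ‖ * lam ≤ ‖ξ‖ * ‖ξ‖ * lam := by gcongr
          _ = lam * ‖ξ‖ ^ 2 := by ring
          _ ≤ Q ξ := hQ ξ
          _ = 1 * Q ξ := by ring
    calc ‖ξ j / Q ξ‖ * ‖∑ l, ((ξ l : ℝ) : ℂ) * z l‖
        ≤ ‖ξ j / Q ξ‖ * (‖ξ‖ * ∑ l, ‖z l‖) := by gcongr
      _ = (‖ξ j / Q ξ‖ * ‖ξ‖) * ∑ l, ‖z l‖ := by ring
      _ ≤ _ := by
        have : 0 ≤ ∑ l, ‖z l‖ := Finset.sum_nonneg fun _ _ => norm_nonneg _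
        gcongr
  calc ‖-(((ξ j / Q ξ : ℝ) : ℂ) * ∑ l, ((ξ l : ℝ) : ℂ) * z l)‖ₑ
      = ENNReal.ofReal ‖-(((ξ j / Q ξ : ℝ) : ℂ) * ∑ l, ((ξ l : ℝ) : ℂ) * z l)‖ :=
        (ofReal_norm _).symm
    _ ≤ ENNReal.ofReal ((1 / lam) * ∑ l, ‖z l‖) := ENNReal.ofReal_le_ofReal h1
    _ = _ := by
      rw [ENNReal.ofReal_mul (by positivity), ENNReal.ofReal_sum_of_nonneg fun _ _ => norm_nonneg _]
      simp_rw [ofReal_norm]

/-- The kernel. -/
noncomputable def HH (lam : ℝ) (K : Fin 2 → Fin 2 → P → ℂ) (ξ : P) : ℝ≥0∞ :=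
  ENNReal.ofReal (2 / lam) * ∑ l, ∑ m, ‖K l m ξ‖ₑ

/-- The sizes. -/
noncomputable def NN (Q : P → ℝ) (K : Fin 2 → Fin 2 → P → ℂ) (k : ℕ) (ξ : P) : ℝ≥0∞ :=
  ∑ j, ‖it Q K k j ξ‖ₑ

lemma two_ofReal (lam : ℝ) (hlam : 0 < lam) :
    ENNReal.ofReal (2 / lam) = 2 * ENNReal.ofReal (1 / lam) := by
  have h2 : (2 : ℝ≥0∞) = ENNReal.ofReal 2 := by simp
  rw [h2, ← ENNReal.ofReal_mul (by norm_num)]
  congr 1
  ring

lemma NN_zero (lam : ℝ) (hlam : 0 < lam) (Q : P → ℝ) (hQ : ∀ ξ, lam * ‖ξ‖ ^ 2 ≤ Q ξ)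
    (K : Fin 2 → Fin 2 → P → ℂ) (ξ : P) : NN Q K 0 ξ ≤ HH lam K ξ := by
  unfold NN HH
  have h1 : ∀ j, ‖it Q K 0 j ξ‖ₑ ≤ ENNReal.ofReal (1 / lam) * ∑ l, ‖K l 0 ξ‖ₑ :=
    fun j => coef_bound lam hlam Q hQ ξ j fun l => K l 0 ξ
  calc ∑ j, ‖it Q K 0 j ξ‖ₑ ≤ ∑ _j : Fin 2, ENNReal.ofReal (1 / lam) * ∑ l, ‖K l 0 ξ‖ₑ :=
        Finset.sum_le_sum fun j _ => h1 j
    _ = ENNReal.ofReal (2 / lam) * ∑ l, ‖K l 0 ξ‖ₑ := by
        rw [Finset.sum_const, Finset.card_univ, Fintype.card_fin, two_ofReal lam hlam,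
          nsmul_eq_mul, mul_assoc]
        rfl
    _ ≤ _ := by
        gcongr with l _
        exact Finset.single_le_sum (f := fun m => ‖K l m ξ‖ₑ) (fun _ _ => bot_le)
          (Finset.mem_univ 0)

lemma NN_succ (lam : ℝ) (hlam : 0 < lam) (Q : P → ℝ) (hQm : Measurable Q)
    (hQ : ∀ ξ, lam * ‖ξ‖ ^ 2 ≤ Q ξ) (K : Fin 2 → Fin 2 → P → ℂ) (hK : ∀ l m, Measurable (K l m))
    (k : ℕ) (ξ : P) :
    NN Q K (k + 1) ξ ≤ ∫⁻ η, HH lam K η * NN Q K k (ξ - η) := by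
  have h1 : ∀ j, ‖it Q K (k + 1) j ξ‖ₑ ≤ ENNReal.ofReal (1 / lam) *
      ∑ l, ‖∑ m, cv (K l m) (it Q K k m) ξ‖ₑ :=
    fun j => coef_bound lam hlam Q hQ ξ j fun l => ∑ m, cv (K l m) (it Q K k m) ξ
  have h2 : ∀ l m, ‖cv (K l m) (it Q K k m) ξ‖ₑ ≤ ∫⁻ η, ‖K l m η‖ₑ * NN Q K k (ξ - η) := by
    intro l m
    rw [cv_apply]
    refine (enorm_integral_le_lintegral_enorm _).trans (lintegral_mono fun η => ?_)
    rw [enorm_mul]
    gcongr
    exact Finset.single_le_sum (f := fun m => ‖it Q K k m (ξ - η)‖ₑ) (fun _ _ => bot_le)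
      (Finset.mem_univ m)
  have hit := measurable_it Q hQm K hK k
  have hNm : Measurable (NN Q K k) := Finset.measurable_sum _ fun j _ => (hit j).enorm
  have hNm' : Measurable fun η => NN Q K k (ξ - η) := hNm.comp (measurable_const.sub measurable_id)
  unfold NN at h2 hNm'
  calc NN Q K (k + 1) ξ = ∑ j, ‖it Q K (k + 1) j ξ‖ₑ := rfl
    _ ≤ ∑ _j : Fin 2, ENNReal.ofReal (1 / lam) * ∑ l, ‖∑ m, cv (K l m) (it Q K k m) ξ‖ₑ :=
        Finset.sum_le_sum fun j _ => h1 j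
    _ = ENNReal.ofReal (2 / lam) * ∑ l, ‖∑ m, cv (K l m) (it Q K k m) ξ‖ₑ := by
        rw [Finset.sum_const, Finset.card_univ, Fintype.card_fin, two_ofReal lam hlam,
          nsmul_eq_mul, mul_assoc]
        rfl
    _ ≤ ENNReal.ofReal (2 / lam) * ∑ l, ∑ m, ∫⁻ η, ‖K l m η‖ₑ * NN Q K k (ξ - η) := by
        gcongr with l _
        exact (enorm_sum_le _ _).trans (Finset.sum_le_sum fun m _ => h2 l m)
    _ = ∫⁻ η, HH lam K η * NN Q K k (ξ - η) := by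
        unfold HH NN
        simp_rw [mul_assoc, Finset.sum_mul]
        rw [lintegral_const_mul, lintegral_finsetSum]
        · congr 1
          refine Finset.sum_congr rfl fun l _ => ?_
          rw [lintegral_finsetSum]
          intro m _
          exact (hK l m).enorm.mul hNm'
        · intro l _
          exact Finset.measurable_sum _ fun m _ => (hK l m).enorm.mul hNm'
        · exact Finset.measurable_sum _ fun l _ => Finset.measurable_sum _ fun m _ =>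
            (hK l m).enorm.mul hNm'

/-- A series of functions with finite sum of integrals of norms. -/
lemma ae_finite (v : ℕ → P → ℂ) (hv : ∀ k, Measurable (v k)) (h : ∑' k, ∫⁻ ξ, ‖v k ξ‖ₑ ≠ ⊤) :
    ∀ᵐ ξ, Summable fun k => v k ξ := by
  have h1 : ∫⁻ ξ, ∑' k, ‖v k ξ‖ₑ ≠ ⊤ := by
    rw [lintegral_tsum fun k => (hv k).enorm.aemeasurable]
    exact h
  have h2 : Measurable fun ξ => ∑' k, ‖v k ξ‖ₑ := Measurable.ennreal_tsum fun k => (hv k).enorm
  filter_upwards [ae_lt_top h2 h1] with ξ hξ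
  refine Summable.of_enorm ?_
  exact hξ.ne

lemma aesm_tsum (v : ℕ → P → ℂ) (hv : ∀ k, Measurable (v k)) (h : ∑' k, ∫⁻ ξ, ‖v k ξ‖ₑ ≠ ⊤) :
    AEStronglyMeasurable (fun ξ => ∑' k, v k ξ) volume := by
  refine aestronglyMeasurable_of_tendsto_ae atTop
    (f := fun n ξ => ∑ k ∈ Finset.range n, v k ξ) (fun n => ?_) ?_
  · exact (Finset.measurable_sum _ fun k _ => hv k).aestronglyMeasurable
  · filter_upwards [ae_finite v hv h] with ξ hξ
    exact hξ.hasSum.tendsto_sum_nat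

lemma lintegral_moment_tsum (v : ℕ → P → ℂ) (hv : ∀ k, Measurable (v k)) (n : ℕ) :
    ∫⁻ ξ, ‖ξ‖ₑ ^ n * ‖∑' k, v k ξ‖ₑ ≤ ∑' k, ∫⁻ ξ, ‖ξ‖ₑ ^ n * ‖v k ξ‖ₑ := by
  rw [← lintegral_tsum]
  · refine lintegral_mono fun ξ => ?_
    rw [ENNReal.tsum_mul_left]
    gcongr
    exact enorm_tsum_le_tsum_enorm
  · intro k
    exact ((measurable_enorm.pow_const n).mul (hv k).enorm).aemeasurable

lemma cv_tsum (K : P → ℂ) (hK : Measurable K) (hKi : ∫⁻ ξ, ‖K ξ‖ₑ ≠ ⊤) (v : ℕ → P → ℂ)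
    (hv : ∀ k, Measurable (v k)) (h : ∑' k, ∫⁻ ξ, ‖v k ξ‖ₑ ≠ ⊤) :
    ∀ᵐ ξ, Summable (fun k => cv K (v k) ξ) ∧
      cv K (fun η => ∑' k, v k η) ξ = ∑' k, cv K (v k) ξ := by
  have hm : ∀ k, Measurable fun p : P × P => ‖K p.2 * v k (p.1 - p.2)‖ₑ := fun k =>
    ((hK.comp measurable_snd).mul ((hv k).comp (measurable_fst.sub measurable_snd))).enorm
  have hm1 : ∀ k, Measurable fun ξ => ∫⁻ η, ‖K η * v k (ξ - η)‖ₑ := fun k =>
    (hm k).lintegral_prod_right'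
  have hk : ∀ k, ∫⁻ ξ, ∫⁻ η, ‖K η * v k (ξ - η)‖ₑ = (∫⁻ ξ, ‖K ξ‖ₑ) * ∫⁻ ξ, ‖v k ξ‖ₑ := by
    intro k
    rw [lintegral_lintegral_swap (hm k).aemeasurable]
    calc ∫⁻ η, ∫⁻ ξ, ‖K η * v k (ξ - η)‖ₑ = ∫⁻ η, ‖K η‖ₑ * ∫⁻ ξ, ‖v k ξ‖ₑ := by
          refine lintegral_congr fun η => ?_
          simp_rw [enorm_mul]
          rw [lintegral_const_mul]
          · congr 1
            exact lintegral_sub_right_eq_self (μ := (volume : Measure P)) (fun ξ => ‖v k ξ‖ₑ) η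
          · exact ((hv k).comp (measurable_id.sub_const η)).enorm
      _ = _ := lintegral_mul_const _ hK.enorm
  have htot : ∫⁻ ξ, ∑' k, ∫⁻ η, ‖K η * v k (ξ - η)‖ₑ ≠ ⊤ := by
    rw [lintegral_tsum fun k => (hm1 k).aemeasurable]
    simp_rw [hk]
    rw [ENNReal.tsum_mul_left]
    exact ENNReal.mul_ne_top hKi h
  have hmt : Measurable fun ξ => ∑' k, ∫⁻ η, ‖K η * v k (ξ - η)‖ₑ := Measurable.ennreal_tsum hm1
  filter_upwards [ae_lt_top hmt htot] with ξ hξ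
  constructor
  · refine Summable.of_enorm ?_
    refine ne_top_of_le_ne_top hξ.ne (ENNReal.tsum_le_tsum fun k => ?_)
    rw [cv_apply]
    exact enorm_integral_le_lintegral_enorm _
  · rw [cv_apply]
    simp_rw [cv_apply, ← tsum_mul_left]
    refine integral_tsum (fun k => ?_) hξ.ne
    exact (hK.mul ((hv k).comp (measurable_const.sub measurable_id))).aestronglyMeasurable

lemma measurable_HH (lam : ℝ) (K : Fin 2 → Fin 2 → P → ℂ) (hK : ∀ l m, Measurable (K l m)) :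
    Measurable (HH lam K) := by
  unfold HH
  exact (Finset.measurable_sum _ fun l _ => Finset.measurable_sum _ fun m _ =>
    (hK l m).enorm).const_mul _

lemma lintegral_of_mom (K : P → ℂ) (h : Mom K) (n : ℕ) : ∫⁻ ξ, ‖ξ‖ₑ ^ n * ‖K ξ‖ₑ ≠ ⊤ := by
  have h1 := (h.2 n).2
  unfold HasFiniteIntegral at h1
  refine ne_top_of_le_ne_top h1.ne (le_of_eq ?_)
  refine lintegral_congr fun ξ => ?_
  simp

lemma mom_of_lintegral (K : P → ℂ) (hK : AEStronglyMeasurable K volume)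
    (h : ∀ n, ∫⁻ ξ, ‖ξ‖ₑ ^ n * ‖K ξ‖ₑ ≠ ⊤) : Mom K := by
  refine ⟨hK, fun n => ⟨?_, ?_⟩⟩
  · have h1 : AEStronglyMeasurable (fun ξ : P => ‖ξ‖ ^ n) volume := by
      refine Continuous.aestronglyMeasurable ?_
      fun_prop
    exact h1.mul hK.norm
  · unfold HasFiniteIntegral
    refine lt_of_le_of_lt (le_of_eq ?_) (lt_top_iff_ne_top.2 (h n))
    refine lintegral_congr fun ξ => ?_
    simp

theorem proof_neu (hmom : S_MOM) : S_NEU := by
  intro lam hlam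
  refine ⟨lam / 80, by positivity, ?_⟩
  intro Q hQm hQ K0 hK0 hK0i
  -- Borel representatives
  set K : Fin 2 → Fin 2 → P → ℂ := fun l m => (hK0 l m).1.mk (K0 l m) with hKdef
  have hKm : ∀ l m, Measurable (K l m) := fun l m =>
    (hK0 l m).1.stronglyMeasurable_mk.measurable
  have hKe : ∀ l m, K0 l m =ᵐ[volume] K l m := fun l m => (hK0 l m).1.ae_eq_mk
  have hcv : ∀ l m (g : P → ℂ) ξ, cv (K0 l m) g ξ = cv (K l m) g ξ := by
    intro l m g ξ
    rw [cv_apply, cv_apply]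
    refine integral_congr_ae ?_
    filter_upwards [hKe l m] with η hη
    rw [hη]
  have hKn : ∀ l m (n : ℕ), ∫⁻ ξ, ‖ξ‖ₑ ^ n * ‖K l m ξ‖ₑ ≠ ⊤ := by
    intro l m n
    have h1 := lintegral_of_mom _ (hK0 l m) n
    refine ne_top_of_le_ne_top h1 (le_of_eq (lintegral_congr_ae ?_))
    filter_upwards [hKe l m] with η hη
    rw [hη]
  have hK1 : ∀ l m, ∫⁻ ξ, ‖K l m ξ‖ₑ ≤ ENNReal.ofReal (lam / 80) := by
    intro l m
    have h1 : ∫⁻ ξ, ‖K l m ξ‖ₑ = ∫⁻ ξ, ‖K0 l m ξ‖ₑ := by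
      refine lintegral_congr_ae ?_
      filter_upwards [hKe l m] with η hη
      rw [hη]
    have hint : Integrable (K0 l m) := by
      have := (hK0 l m).2 0
      simp only [pow_zero, one_mul] at this
      exact (integrable_norm_iff (hK0 l m).1).1 this
    rw [h1, ← ofReal_integral_norm_eq_lintegral_enorm hint]
    exact ENNReal.ofReal_le_ofReal (hK0i l m)
  -- the bound of the kernel
  have hHm := measurable_HH lam K hKm
  have hH1 : ∫⁻ ξ, HH lam K ξ ≤ 1 / 10 := by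
    unfold HH
    rw [lintegral_const_mul _ (Finset.measurable_sum _ fun l _ => Finset.measurable_sum _
      fun m _ => (hKm l m).enorm), lintegral_finsetSum _ fun l _ => Finset.measurable_sum _
      fun m _ => (hKm l m).enorm]
    calc ENNReal.ofReal (2 / lam) * ∑ l, ∫⁻ ξ, ∑ m, ‖K l m ξ‖ₑ
        ≤ ENNReal.ofReal (2 / lam) * ∑ _l : Fin 2, ∑ _m : Fin 2, ENNReal.ofReal (lam / 80) := by
          gcongr with l _
          rw [lintegral_finsetSum _ fun m _ => (hKm l m).enorm]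
          exact Finset.sum_le_sum fun m _ => hK1 l m
      _ = ENNReal.ofReal (2 / lam) * (4 * ENNReal.ofReal (lam / 80)) := by
          simp only [Finset.sum_const, Finset.card_univ, Fintype.card_fin, nsmul_eq_mul]
          push_cast
          ring
      _ = ENNReal.ofReal (1 / 10) := by
          have h4 : (4 : ℝ≥0∞) = ENNReal.ofReal 4 := by simp
          rw [h4, ← ENNReal.ofReal_mul (by norm_num), ← ENNReal.ofReal_mul (by positivity)]
          congr 1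
          field_simp
          norm_num
      _ ≤ 1 / 10 := by
          rw [ENNReal.ofReal_div_of_pos (by norm_num)]
          simp
  have hHn : ∀ n : ℕ, ∫⁻ ξ, ‖ξ‖ₑ ^ n * HH lam K ξ ≠ ⊤ := by
    intro n
    have h1 : ∫⁻ ξ, ‖ξ‖ₑ ^ n * HH lam K ξ =
        ENNReal.ofReal (2 / lam) * ∑ l, ∑ m, ∫⁻ ξ, ‖ξ‖ₑ ^ n * ‖K l m ξ‖ₑ := by
      unfold HH
      have hmm : ∀ l m, Measurable fun ξ : P => ‖ξ‖ₑ ^ n * ‖K l m ξ‖ₑ := fun l m =>
        (measurable_enorm.pow_const n).mul (hKm l m).enorm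
      have h2 : ∀ ξ : P, ‖ξ‖ₑ ^ n * (ENNReal.ofReal (2 / lam) * ∑ l, ∑ m, ‖K l m ξ‖ₑ) =
          ENNReal.ofReal (2 / lam) * ∑ l, ∑ m, ‖ξ‖ₑ ^ n * ‖K l m ξ‖ₑ := by
        intro ξ
        simp_rw [← Finset.mul_sum]
        ring
      simp_rw [h2]
      rw [lintegral_const_mul _ (Finset.measurable_sum _ fun l _ => Finset.measurable_sum _
        fun m _ => hmm l m), lintegral_finsetSum _ fun l _ => Finset.measurable_sum _
        fun m _ => hmm l m]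
      congr 1
      refine Finset.sum_congr rfl fun l _ => ?_
      exact lintegral_finsetSum _ fun m _ => hmm l m
    rw [h1]
    refine ENNReal.mul_ne_top (by simp) ?_
    refine ENNReal.sum_ne_top.2 fun l _ => ENNReal.sum_ne_top.2 fun m _ => hKn l m n
  -- the moments of the iterates
  have hit := measurable_it Q hQm K hKm
  have hNm : ∀ k, Measurable (NN Q K k) := fun k =>
    Finset.measurable_sum _ fun j _ => (hit k j).enorm
  obtain ⟨hA, hB⟩ := hmom (HH lam K) hHm hHn hH1 (NN Q K) hNm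
    (Eventually.of_forall fun ξ => NN_zero lam hlam Q hQ K ξ)
    (fun k => Eventually.of_forall fun ξ => NN_succ lam hlam Q hQm hQ K hKm k ξ)
  have hle : ∀ k j ξ, ‖it Q K k j ξ‖ₑ ≤ NN Q K k ξ := fun k j ξ =>
    Finset.single_le_sum (f := fun j => ‖it Q K k j ξ‖ₑ) (fun _ _ => bot_le) (Finset.mem_univ j)
  have hAj : ∀ (n : ℕ) j, ∑' k, ∫⁻ ξ, ‖ξ‖ₑ ^ n * ‖it Q K k j ξ‖ₑ ≠ ⊤ := fun n j =>
    ne_top_of_le_ne_top (hA n) (ENNReal.tsum_le_tsum fun k => lintegral_mono fun ξ => by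
      have := hle k j ξ
      gcongr)
  have hBj : ∀ j, ∑' k, ∫⁻ ξ, ‖it Q K k j ξ‖ₑ ≤ 1 / 9 := fun j =>
    (ENNReal.tsum_le_tsum fun k => lintegral_mono fun ξ => hle k j ξ).trans hB
  have hBt : ∀ j, ∑' k, ∫⁻ ξ, ‖it Q K k j ξ‖ₑ ≠ ⊤ := fun j =>
    ne_top_of_le_ne_top (by simp) (hBj j)
  -- the solution
  set v : Fin 2 → P → ℂ := fun j ξ => ∑' k, it Q K k j ξ with hv
  have hvm : ∀ j, AEStronglyMeasurable (v j) volume := fun j =>
    aesm_tsum (fun k => it Q K k j) (fun k => hit k j) (hBt j)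
  refine ⟨v, fun j => ?_, fun j => ?_, ?_⟩
  · refine mom_of_lintegral _ (hvm j) fun n => ?_
    exact ne_top_of_le_ne_top (hAj n j)
      (lintegral_moment_tsum (fun k => it Q K k j) (fun k => hit k j) n)
  · have h1 : ∫⁻ ξ, ‖v j ξ‖ₑ ≤ 1 / 9 := by
      have h2 := lintegral_moment_tsum (fun k => it Q K k j) (fun k => hit k j) 0
      simp only [pow_zero, one_mul] at h2
      exact h2.trans (hBj j)
    rw [integral_norm_eq_lintegral_enorm (hvm j)]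
    have h3 := ENNReal.toReal_mono (by simp) h1
    refine h3.trans ?_
    norm_num
  · have hs : ∀ᵐ ξ, ∀ j, Summable fun k => it Q K k j ξ := by
      rw [ae_all_iff]
      exact fun j => ae_finite (fun k => it Q K k j) (fun k => hit k j) (hBt j)
    have hc : ∀ᵐ ξ, ∀ l m, Summable (fun k => cv (K l m) (it Q K k m) ξ) ∧
        cv (K l m) (v m) ξ = ∑' k, cv (K l m) (it Q K k m) ξ := by
      rw [ae_all_iff]
      intro l
      rw [ae_all_iff]
      intro m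
      have hKi : ∫⁻ ξ, ‖K l m ξ‖ₑ ≠ ⊤ := ne_top_of_le_ne_top (by simp) (hK1 l m)
      exact cv_tsum (K l m) (hKm l m) hKi (fun k => it Q K k m) (fun k => hit k m) (hBt m)
    have hKK : ∀ᵐ ξ, ∀ l, K0 l 0 ξ = K l 0 ξ := by
      rw [ae_all_iff]
      exact fun l => hKe l 0
    filter_upwards [hs, hc, hKK] with ξ h1 h2 h3
    intro j
    simp_rw [hcv, h3]
    have h4 : v j ξ = it Q K 0 j ξ + ∑' k, it Q K (k + 1) j ξ := (h1 j).tsum_eq_zero_add
    have h5 : HasSum (fun k => it Q K (k + 1) j ξ)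
        (-(((ξ j / Q ξ : ℝ) : ℂ) * ∑ l, ((ξ l : ℝ) : ℂ) * ∑ m, cv (K l m) (v m) ξ)) := by
      refine HasSum.neg (HasSum.mul_left _ ?_)
      refine hasSum_sum fun l _ => HasSum.mul_left _ ?_
      refine hasSum_sum fun m _ => ?_
      rw [(h2 l m).2]
      exact (h2 l m).1.hasSum
    rw [h4, h5.tsum_eq]
    simp only [it, mul_add, Finset.sum_add_distrib]
    ring

end Pool.Agent.Q203.ISO

/-- The Neumann series, without hypotheses. -/
theorem Pool.Agent.Q203.ISO.t_NEU : Pool.Agent.Q63.ISO.S_NEU :=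
  Pool.Agent.Q203.ISO.proof_neu Pool.Agent.Q203.ISO.proof_mom
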